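import Pool.Agent.H60.FR2.Fre
import Pool.Agent.H92.D2.FreeN

/-!
# The direction of the near path is free of the heights: all small accuracies

`f1_W`, `f0_W`, `fw2_W`: relative to the time and the frame from relative to the time. `fr2_ex`: the
class form of `fr2_of`: there are `e₀`, `k₀` such that `Fr2` holds for all `e ≤ e₀`, `k ≤ k₀`.
-/

set_option autoImplicit false

namespace Pool.FR60

open Finset Real MvPolynomial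
open Pool.Agent.H49.Ent Pool.Agent.H32.Dense Pool.STK Pool.KA Pool.KSAT Pool.K2S Pool.PB Pool.GEN
open Pool.S6C Pool.RCD Pool.LA91 Pool.OWN68 Pool.AJW Pool.AJX Pool.CHT Pool.PN18 Pool.LPK12
open Pool.TE46 Pool.AB63
open Pool.GRD (LbP)
open Pool.UNJ (ceI)
open Pool.LP30 (paQ htQ)

variable {m : ℕ} {S : PCl m} {α : ∀ J : ℕ, Fam m J → Type} {β : ∀ J : ℕ, Fam m J → Type}
  {f : ∀ (J : ℕ) (F : Fam m J), F.Ω → α J F} {g : ∀ (J : ℕ) (F : Fam m J), F.Ω → β J F}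
  {U U' U₀ : Type} {Q : Qt m U} {Q' : Qt m U'} {e η : ℝ}

theorem W_T {J : ℕ} {F : Fam m J} {ω ω' : F.Ω} (h : F.W ω = F.W ω') : F.T ω = F.T ω' :=
  (Prod.ext_iff.mp h).1

/-- Few bits relative to the time and the frame. -/
theorem f1_W
    (hpos : ∀ (τ : ℝ) (J : ℕ) (F : Fam m J) (A : F.Ω → Prop), S.St τ J F A → 0 < Pe F.p A)
    (h : F1 S f g (fun _ F => F.T) Q Q' e η) : F1 S f g (fun _ F => F.W) Q Q' e η := by
  intro K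
  refine Bas.mono 0 ((h K).and (pos_bas hpos)) ?_
  rintro J - F A ⟨h, hA⟩ u u' hu hu'
  obtain ⟨V, z, hz, h1⟩ := h u u' hu hu'
  refine ⟨V, z, hz, le_trans (CH_mono_cond (isLaw_cond F.isLaw hA).nonneg ?_) h1⟩
  intro ω ω' _ _ hh
  obtain ⟨a1, a2⟩ := Prod.ext_iff.1 hh
  obtain ⟨a3, a4⟩ := Prod.ext_iff.1 a2
  exact Prod.ext a1 (Prod.ext a3 (W_T a4))

theorem f0_W
    (hpos : ∀ (τ : ℝ) (J : ℕ) (F : Fam m J) (A : F.Ω → Prop), S.St τ J F A → 0 < Pe F.p A)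
    (h : F0 S f g (fun _ F => F.T) Q e η) : F0 S f g (fun _ F => F.W) Q e η := by
  intro K
  refine Bas.mono 0 ((h K).and (pos_bas hpos)) ?_
  rintro J - F A ⟨h, hA⟩ u hu
  obtain ⟨V, z, hz, h1⟩ := h u hu
  refine ⟨V, z, hz, le_trans (CH_mono_cond (isLaw_cond F.isLaw hA).nonneg ?_) h1⟩
  intro ω ω' _ _ hh
  obtain ⟨a1, a2⟩ := Prod.ext_iff.1 hh
  exact Prod.ext a1 (W_T a2)

theorem fw2_W
    (hpos : ∀ (τ : ℝ) (J : ℕ) (F : Fam m J) (A : F.Ω → Prop), S.St τ J F A → 0 < Pe F.p A)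
    {a : ℝ} {Ψ : Fm2 m} {τ : ∀ (J : ℕ) (_ : Fam m J), Type → Type → Type}
    {X : ∀ (J : ℕ) (F : Fam m J) (V C : Type), (LnT F → V) →
      (V → MvPolynomial (Option (Fin m)) ℝ) → (V → MvPolynomial (Option (Fin m)) ℝ) →
      (LnT F → C) → F.Ω → τ J F V C} {δ : ℝ}
    (h : Fw2 S f a (fun _ F => F.T) Q Ψ (τ := τ) X e δ) :
    Fw2 S f a (fun _ F => F.W) Q Ψ (τ := τ) X e δ := by
  intro K
  refine Bas.mono 0 ((h K).and (pos_bas hpos)) ?_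
  rintro J - F A ⟨h, hA⟩ V C z z' G₁ G₂ cc hc u hu
  obtain ⟨V₁, z₁, hz, h1⟩ := h V C z z' G₁ G₂ cc hc u hu
  refine ⟨V₁, z₁, hz, le_trans (CH_mono_cond (isLaw_cond F.isLaw hA).nonneg ?_) h1⟩
  intro ω ω' _ _ hh
  obtain ⟨a1, a2⟩ := Prod.ext_iff.1 hh
  obtain ⟨a3, a4⟩ := Prod.ext_iff.1 a2
  exact Prod.ext a1 (Prod.ext a3 (W_T a4))

/-- **The direction is free of the heights**, for all small accuracies. -/
theorem fr2_ex {C₀ : ℝ} (htm : TmC S C₀) {c : ℕ → Fin m} {r : ℕ} {b w w₁ : ℝ} {p : ℕ → ℝ}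
    {X : ℕ → ℕ → ℝ} {U Uv : Type} {Qp : Qt m U} {QV : Qt m Uv} {P₁ P₂ κ c₁ c₂ h : ℝ}
    (hw0 : 0 ≤ w) (hww : w ≤ w₁) (hw1 : w₁ ≤ 1)
    (hX : ∀ l < r, ∀ j, 1 ≤ j → X l 0 ≤ X l j)
    (hfr : ∃ k₂ : ℝ, 0 < k₂ ∧ ∃ e₀ : ℝ, 0 < e₀ ∧ ∀ K : ℕ, Bas S (fun J F A =>
      ∀ (V : Type) (z : F.Ω → V) (V' : Type) (z' : F.Ω → V'),
      Mx (fun J F => ptr F J) (vg w) k₂ F A z → Mx (fun J F => ptr F J) (vg w₁) k₂ F A z' →
      ∀ u, QV.P K e₀ J F A u →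
      CH (Pool.Agent.H49.Ent.cond F.p A True) u (fun ω => (z ω, F.W ω)) ≤
        CH (Pool.Agent.H49.Ent.cond F.p A True) u (fun ω => (z' ω, F.W ω)) + κ * J))
    (hex : Exs S QV)
    (hV : Pool.LA91.FewC S (fun J F => ptr F J) (vg w) (fun _ F => F.W) Qp QV c₁)
    (hP : Pool.LA91.FewC S (fun J F => ptr F J) (vg w) (fun _ F => F.W)
      ((htQ m c r b p (fun l => X l 0)).prod QV) Qp c₂)
    (hH : Few0 S (fun J F => ptr F J) (vg w₁) (fun _ F => F.W) (htQ m c r b p (fun l => X l 0)))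
    (hO₁ : Few0 S (fun J F => ptr F J) (vg w₁) (fun _ F => F.W)
      (qJet m ((range r).image c) (c r) 0 b (p r) P₁))
    (hO₂ : Few0 S (fun J F => ptr F J) (vg w₁) (fun _ F => F.W)
      (qJet m ((range (r + 1)).image c) (c (r + 1)) 0 b (p (r + 1)) P₂)) (hh : 0 < h) :
    ∃ e₀ : ℝ, 0 < e₀ ∧ ∃ k₀ : ℝ, 0 < k₀ ∧ ∀ (e k : ℝ), 0 < e → e ≤ e₀ → 0 ≤ k → k ≤ k₀ →
      ∀ (Ψ₀ : Fm2 m) (K : ℕ) (E rd : ℕ → ℝ) (I₀ : Finset (Fin m)) (μ δn δx δ : ℝ),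
      0 < μ → (∀ l < r, c l ∈ I₀) → (∀ l < r + 2, 0 ≤ E l + e) → (∀ l < r + 2, rd l + e ≤ 1) →
      (∀ l < r, X l 0 + (E l + e) + μ ≤ 1) → P₁ + (E r + e) + μ ≤ 1 →
      P₂ + (E (r + 1) + e) + μ ≤ 1 → NpF S (FmB Ψ₀ c r K e E b w rd p X) w Qp e δn →
      Fw2 S (fun J F => ptr F J) w (fun _ F => F.W) Qp (FmB Ψ₀ c r K e E b w rd p X)
        (τ := fun _ _ _ C => C) (fun J F _ _ _ _ _ cc ω => cc (vg w J F ω)) e δx →
      0 < δ → κ + c₁ + c₂ + δn + δx + h < δ →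
      Fr2 S (FmM (FmB Ψ₀ c r K e E b w rd p X) w k) I₀ (c r) (c (r + 1)) w P₁ P₂
        ((4 * K + 23) ^ (r + 2)) δ := by
  obtain ⟨k₂, hk₂, e₁, he₁, hfr⟩ := hfr
  obtain ⟨h', hh', hh12⟩ : ∃ h' : ℝ, 0 < h' ∧ 12 * h' ≤ h := ⟨h / 12, by positivity, by linarith⟩
  obtain ⟨e₂, he₂, hV⟩ := hV h' hh'
  obtain ⟨e₃, he₃, hP⟩ := hP h' hh'
  obtain ⟨e₄, he₄, hH⟩ := hH h' hh'
  obtain ⟨e₅, he₅, hO₁⟩ := hO₁ h' hh'
  obtain ⟨e₆, he₆, hO₂⟩ := hO₂ h' hh'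
  refine ⟨min (min e₁ e₂) (min (min e₃ e₄) (min e₅ e₆)), by positivity, min k₂ h', by positivity,
    fun e k he0 he hk0 hk Ψ₀ K E rd I₀ μ δn δx δ hμ hI hE hr n1 n2 n3 hnp hcx hδ0 hδ => ?_⟩
  have l1 : e ≤ e₁ := he.trans ((min_le_left _ _).trans (min_le_left _ _))
  have l2 : e ≤ e₂ := he.trans ((min_le_left _ _).trans (min_le_right _ _))
  have l3 : e ≤ e₃ := he.trans ((min_le_right _ _).trans ((min_le_left _ _).trans
    (min_le_left _ _)))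
  have l4 : e ≤ e₄ := he.trans ((min_le_right _ _).trans ((min_le_left _ _).trans
    (min_le_right _ _)))
  have l5 : e ≤ e₅ := he.trans ((min_le_right _ _).trans ((min_le_right _ _).trans
    (min_le_left _ _)))
  have l6 : e ≤ e₆ := he.trans ((min_le_right _ _).trans ((min_le_right _ _).trans
    (min_le_right _ _)))
  have lk : k ≤ h' := hk.trans (min_le_right _ _)
  refine fr2_of htm hw0 hww hw1 hk0 hμ hI hX hE hr n1 n2 n3 (κ := κ) (c₁ := c₁ + h')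
    (c₂ := c₂ + h') (η₀ := h') (η₁ := h') (η₂ := h') (Qp := Qp) (QV := QV) ?_ ?_ hnp hcx ?_ ?_ ?_
    ?_ ?_ hδ0 (by linarith)
  · intro K₀
    refine Bas.mono 0 (hfr K₀) ?_
    rintro J - F A H V z V' z' hz hz' u hu
    exact H V z V' z' (hz.le (hk.trans (min_le_left _ _))) (hz'.le (hk.trans (min_le_left _ _))) u
      (QV.mono le_rfl l1 hu)
  · obtain ⟨K₁, M, hx⟩ := hex e he0
    exact ⟨K₁, Bas.mono 0 hx fun J _ F A ⟨u, hu, _⟩ => ⟨u, hu⟩⟩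
  · exact F1.mono hV l2 le_rfl
  · exact F1.mono hP l3 le_rfl
  · exact F0.mono hH l4 le_rfl
  · exact F0.mono hO₁ l5 le_rfl
  · exact F0.mono hO₂ l6 le_rfl

end Pool.FR60
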