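import Pool.Agent.H60.FR2.Pos

/-!
# The direction is free of the values, law level

`fr_ent`: if the velocities `u` are as free given a later record `z₁` as given the code `z`, the
direction `E` and the velocities are few bits given each other and the position `A`, and the position
and the values `O` are few bits given the later record, then the direction is as free given the
position and the values as given the position.
-/

set_option autoImplicit false

namespace Pool.FR60

open Finset Real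
open Pool.Agent.H49.Ent Pool.Agent.H32.Dense Pool.STK

/-- **The direction is free of the values.** -/
theorem fr_ent {Ω U E' A' O' Z Z₁ W : Type} [Fintype Ω] {q : Ω → ℝ} (h0 : ∀ ω, 0 ≤ q ω)
    (u : Ω → U) (E : Ω → E') (Ap : Ω → A') (O : Ω → O') (z : Ω → Z) (z₁ : Ω → Z₁) (w : Ω → W)
    {κ e₁ e₂ e₃ : ℝ} (hA : Det q Ap (fun ω => (z ω, w ω)))
    (hf : CH q u (fun ω => (z ω, w ω)) ≤ CH q u (fun ω => (z₁ ω, w ω)) + κ)
    (h1 : CH q E (fun ω => (u ω, Ap ω)) ≤ e₁) (h2 : CH q u (fun ω => (E ω, Ap ω)) ≤ e₂)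
    (h3 : CH q (fun ω => (Ap ω, O ω)) (fun ω => (z₁ ω, w ω)) ≤ e₃) :
    CH q E Ap ≤ CH q E (fun ω => (Ap ω, O ω)) + (κ + e₁ + e₂ + e₃) := by
  have a1 := CH_le_add h0 E u Ap
  have a2 : CH q u Ap ≤ CH q u (fun ω => (z ω, w ω)) := CH_mono_cond h0 hA
  have a3 := CH_le_add h0 u (fun ω => (Ap ω, O ω)) (fun ω => (z₁ ω, w ω))
  have a4 : CH q u (fun ω => ((Ap ω, O ω), (z₁ ω, w ω))) ≤ CH q u (fun ω => (Ap ω, O ω)) :=
    CH_mono_cond h0 fun _ _ _ _ h => (Prod.ext_iff.1 h).1
  have a5 := CH_le_add h0 u E (fun ω => (Ap ω, O ω))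
  have a6 : CH q u (fun ω => (E ω, (Ap ω, O ω))) ≤ CH q u (fun ω => (E ω, Ap ω)) :=
    CH_mono_cond h0 fun _ _ _ _ h => by
      simp only [Prod.mk.injEq] at h ⊢
      exact ⟨h.1, h.2.1⟩
  linarith

end Pool.FR60
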