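import Pool.Agent.H60.FR2.Ent
import Pool.Agent.H63.AB.Ctx
import Pool.Agent.H30.LP.Ipa

/-!
# The direction of the near path is free of the heights: the class

`fr2_of`: `Fr2` for the family `FmB` with maximal codes. The position is `psq`, the direction `drq`.
From: the velocities `QV` over closed charts are as free given the record of a later window `w₁` as
given the record of `w` (`hfr`); near path and velocities are few bits given each other (`hV`, `hP`);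
the context is few bits given the near path (`hcx`) and conversely (`hnp`); the heights of the chain
and of the two places are few bits given the record of `w₁`.
-/

set_option autoImplicit false

namespace Pool.FR60

open Finset Real MvPolynomial
open Pool.Agent.H49.Ent Pool.Agent.H32.Dense Pool.STK Pool.KA Pool.KSAT Pool.K2S Pool.PB Pool.GEN
open Pool.S6C Pool.RCD Pool.LA91 Pool.OWN68 Pool.AJW Pool.AJX Pool.CHT Pool.PN18 Pool.LPK12
open Pool.TE46 Pool.AB63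
open Pool.GRD (LbP)
open Pool.UNJ (ceI)
open Pool.LP30 (paQ htQ)

/-- Near vectors. -/
theorem vec_ch {Ω T : Type} [Fintype Ω] {q : Ω → ℝ} (hq : IsLaw q) {r : ℕ} {c : ℝ}
    (X : Ω → ℕ → ℤ) (R : Ω → T) (h0 : ∀ ω, ∀ l, r ≤ l → X ω l = 0)
    (h : ∀ ω ω', 0 < q ω → 0 < q ω' → R ω = R ω' → ∀ l < r, |((X ω l - X ω' l : ℤ) : ℝ)| ≤ c) :
    CH q X R ≤ r * Real.log (2 * c + 1) := by
  have h1 := Plk.CH_vec_const hq (fun ω (l : Fin r) => X ω l) R (c := c)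
    fun ω ω' a b hR l => h ω ω' a b hR l l.2
  refine le_trans (CH_mono_left hq.nonneg fun ω ω' _ _ hh => ?_) h1
  have h2 := (Prod.ext_iff.1 hh).1
  funext l
  by_cases hl : l < r
  · exact congrFun h2 ⟨l, hl⟩
  · rw [h0 ω l (not_lt.1 hl), h0 ω' l (not_lt.1 hl)]

/-- A closed function costs at most the defect of the record. -/
theorem use_mx {Ω X' T T' V V₂ : Type} [Fintype Ω] {q : Ω → ℝ} (h0 : ∀ ω, 0 ≤ q ω) (X : Ω → X')
    (R : Ω → T) (z : Ω → V) (z₂ : Ω → V₂) (D : Ω → T') (hz : Det q R z)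
    (hD : Det q (fun ω => (z₂ ω, R ω)) D) {k : ℝ} (hk : CH q z₂ z ≤ k) :
    CH q X R ≤ CH q X D + k := by
  have a1 := CH_le_add h0 X z₂ R
  have a2 : CH q z₂ R ≤ CH q z₂ z := CH_mono_cond h0 hz
  have a3 : CH q X (fun ω => (z₂ ω, R ω)) ≤ CH q X D := CH_mono_cond h0 hD
  linarith

theorem oj_zero_eq {m J : ℕ} {F : Fam m J} {κ : Fin m} {V : Type} {z' : LnT F → V}
    {G : V → MvPolynomial (Option (Fin m)) ℝ} {W : ℕ} {N : ℝ} (ω : F.Ω) :
    oj F κ z' G W N 0 ω = ⌊(2 : ℝ) ^ (N * J) * hgt F κ z' W G ω⌋ := rfl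

theorem hgt_same {m J : ℕ} {F : Fam m J} {κ : Fin m} {V V₁ : Type} {z' : LnT F → V}
    {z₁' : LnT F → V₁} {W W₁ : ℕ} {φ : V → V₁}
    (h : ∀ ω, φ (z' (slam F W ω)) = z₁' (slam F W₁ ω)) {g : V₁ → MvPolynomial (Option (Fin m)) ℝ}
    (ω : F.Ω) : hgt F κ z' W (fun v => g (φ v)) ω = hgt F κ z₁' W₁ g ω := by
  rw [hgt_eq, hgt_eq, h ω]

theorem fl_eq {a b : ℝ} (e : ⌊a⌋ = ⌊b⌋) : |a - b| ≤ 1 := by
  have h1 := Int.floor_le a
  have h2 := Int.lt_floor_add_one a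
  have h3 := Int.floor_le b
  have h4 := Int.lt_floor_add_one b
  rw [e] at h1 h2
  rw [abs_le]
  constructor <;> linarith

theorem ch_pair2 {Ω X' Y' T : Type} [Fintype Ω] {q : Ω → ℝ} (h0 : ∀ ω, 0 ≤ q ω) (X : Ω → X')
    (Y : Ω → Y') (R : Ω → T) : CH q (fun ω => (X ω, Y ω)) R ≤ CH q X R + CH q Y R := by
  rw [CH_chain h0]
  have : CH q X (fun ω => (Y ω, R ω)) ≤ CH q X R :=
    CH_mono_cond h0 fun _ _ _ _ h => (Prod.ext_iff.1 h).2
  linarith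

/-- The floors of near numbers. -/
theorem fl_dist {a b c : ℝ} (h : |a - b| ≤ c) : |((⌊a⌋ - ⌊b⌋ : ℤ) : ℝ)| ≤ c + 1 := by
  have h1 := Int.floor_le a
  have h2 := Int.lt_floor_add_one a
  have h3 := Int.floor_le b
  have h4 := Int.lt_floor_add_one b
  push_cast
  rw [abs_le] at h ⊢
  constructor <;> linarith [h.1, h.2]

section

variable {m : ℕ} {S : PCl m} {Ψ₀ : Fm2 m} {c : ℕ → Fin m} {r K : ℕ} {e : ℝ} {E : ℕ → ℝ} {b w : ℝ}
  {rd p : ℕ → ℝ} {X : ℕ → ℕ → ℝ}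

/-- **The heights of the chain** are a natural quantity. -/
theorem htq_of (c : ℕ → Fin m) (r K : ℕ) (e : ℝ) (E : ℕ → ℝ) (b : ℝ) (rd p N : ℕ → ℝ) :
    ∃ M J₁ : ℕ, ∀ J ≥ J₁, ∀ (F : Fam m J) (A : F.Ω → Prop) (V₁ : Type) (z₁ : PtT F → V₁)
      (z₁' : LnT F → V₁) (g₁ : V₁ → ℕ → MvPolynomial (Option (Fin m)) ℝ),
      LbX F c 0 (r + 2) K e E b rd p A z₁ z₁' g₁ → ∀ H : F.Ω → ℕ → ℕ → ℤ,
      (∀ ω, A ω → ∀ l < r, H ω l 0 =
        ⌊(2 : ℝ) ^ (N l * J) * hgt F (c l) z₁' ⌊b * J⌋₊ (fun v => g₁ v l) ω⌋) →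
      (∀ ω, A ω → ∀ l j, ¬ (l < r ∧ j = 0) → H ω l j = 0) →
      (htQ m c r b p N).P M e J F A H := by
  choose M J₁ h using fun l => qj_of m K 0 (N l) (E l + e) (rd l + e) b (p l) e
  refine ⟨∑ l ∈ range r, M l, ∑ l ∈ range r, J₁ l, fun J hJ F A V₁ z₁ z₁' g₁ h2 H h3 h4 =>
    ⟨fun l _ hl j hj => ?_, fun ω hω l j hn => h4 ω hω l j fun hh => hn ⟨Nat.zero_le _, hh.1,
      hh.2.le⟩⟩⟩
  obtain rfl : j = 0 := by omega
  have e1 : J₁ l ≤ ∑ l ∈ range r, J₁ l :=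
    Finset.single_le_sum (f := J₁) (fun _ _ => Nat.zero_le _) (Finset.mem_range.2 hl)
  have e2 : M l ≤ ∑ l ∈ range r, M l :=
    Finset.single_le_sum (f := M) (fun _ _ => Nat.zero_le _) (Finset.mem_range.2 hl)
  refine (qJet m _ _ _ _ _ _).mono e2 le_rfl (h l J (e1.trans hJ) F _ _ A V₁ z₁ z₁'
    (fun v => g₁ v l) (h2 l (Nat.zero_le _) (by omega)) _ fun ω hω => ?_)
  exact h3 ω hω l hl

/-- **The direction is free of the heights, class level.** -/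
theorem fr2_of {C₀ : ℝ} (htm : TmC S C₀) {w₁ k μ : ℝ} {I₀ : Finset (Fin m)} {U Uv : Type}
    {Qp : Qt m U} {QV : Qt m Uv} {P₁ P₂ κ c₁ c₂ δn δx η₀ η₁ η₂ δ : ℝ} (hw0 : 0 ≤ w)
    (hww : w ≤ w₁) (hw1 : w₁ ≤ 1) (hk : 0 ≤ k) (hμ : 0 < μ) (hI : ∀ l < r, c l ∈ I₀)
    (hX : ∀ l < r, ∀ j, 1 ≤ j → X l 0 ≤ X l j) (hE : ∀ l < r + 2, 0 ≤ E l + e)
    (hr : ∀ l < r + 2, rd l + e ≤ 1) (n1 : ∀ l < r, X l 0 + (E l + e) + μ ≤ 1)
    (n2 : P₁ + (E r + e) + μ ≤ 1) (n3 : P₂ + (E (r + 1) + e) + μ ≤ 1)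
    (hfr : ∀ K₀ : ℕ, Bas S (fun J F A => ∀ (V : Type) (z : F.Ω → V) (V' : Type) (z' : F.Ω → V'),
      Mx (fun J F => ptr F J) (vg w) k F A z → Mx (fun J F => ptr F J) (vg w₁) k F A z' →
      ∀ u, QV.P K₀ e J F A u →
      CH (Pool.Agent.H49.Ent.cond F.p A True) u (fun ω => (z ω, F.W ω)) ≤
        CH (Pool.Agent.H49.Ent.cond F.p A True) u (fun ω => (z' ω, F.W ω)) + κ * J))
    (hex : ∃ K₀ : ℕ, Bas S (fun J F A => ∃ u, QV.P K₀ e J F A u))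
    (hnp : NpF S (FmB Ψ₀ c r K e E b w rd p X) w Qp e δn)
    (hcx : Fw2 S (fun J F => ptr F J) w (fun _ F => F.W) Qp (FmB Ψ₀ c r K e E b w rd p X)
      (τ := fun _ _ _ C => C) (fun J F _ _ _ _ _ cc ω => cc (vg w J F ω)) e δx)
    (hV : F1 S (fun J F => ptr F J) (vg w) (fun _ F => F.W) Qp QV e c₁)
    (hP : F1 S (fun J F => ptr F J) (vg w) (fun _ F => F.W)
      ((htQ m c r b p (fun l => X l 0)).prod QV) Qp e c₂)
    (hH : F0 S (fun J F => ptr F J) (vg w₁) (fun _ F => F.W) (htQ m c r b p (fun l => X l 0))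
      e η₀)
    (hO₁ : F0 S (fun J F => ptr F J) (vg w₁) (fun _ F => F.W)
      (qJet m ((range r).image c) (c r) 0 b (p r) P₁) e η₁)
    (hO₂ : F0 S (fun J F => ptr F J) (vg w₁) (fun _ F => F.W)
      (qJet m ((range (r + 1)).image c) (c (r + 1)) 0 b (p (r + 1)) P₂) e η₂)
    (hδ0 : 0 < δ) (hδ : κ + c₁ + c₂ + δn + δx + η₀ + η₁ + η₂ + 7 * k < δ) :
    Fr2 S (FmM (FmB Ψ₀ c r K e E b w rd p X) w k) I₀ (c r) (c (r + 1)) w P₁ P₂
      ((4 * K + 23) ^ (r + 2)) δ := by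
  classical
  obtain ⟨Kv, hex⟩ := hex
  obtain ⟨Kn, hnp⟩ := hnp
  obtain ⟨Mh, Jh, hht⟩ := htq_of c r K e E b rd p (fun l => X l 0)
  obtain ⟨M1, J1, hq1⟩ := FmB.qu Ψ₀ c r K e E b w rd p X P₁ 0
  obtain ⟨M2, J2, hq2⟩ := FmB.qn Ψ₀ c r K e E b w rd p X P₂ 0
  obtain ⟨Lg, hLg⟩ : ∃ Lg : ℝ, Lg = r * Real.log (4 * K + 23) := ⟨_, rfl⟩
  have hl1 : 0 ≤ Real.log (4 * K + 23) := Real.log_nonneg (by
    have : (0 : ℝ) ≤ K := Nat.cast_nonneg K
    linarith)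
  have hLg0 : 0 ≤ Lg := by
    rw [hLg]
    positivity
  obtain ⟨s, hs⟩ : ∃ s : ℝ, s = min δ
    (δ - (κ + c₁ + c₂ + δn + δx + η₀ + η₁ + η₂ + 7 * k)) := ⟨_, rfl⟩
  have hs0 : 0 < s := by
    rw [hs]
    exact lt_min hδ0 (by linarith)
  have hsδ : s ≤ δ := by
    rw [hs]
    exact min_le_left _ _
  have hsd : s + (κ + c₁ + c₂ + δn + δx + η₀ + η₁ + η₂ + 7 * k) ≤ δ := by
    have := min_le_right δ (δ - (κ + c₁ + c₂ + δn + δx + η₀ + η₁ + η₂ + 7 * k))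
    rw [← hs] at this
    linarith
  obtain ⟨J3, hJ3⟩ := exists_nat_ge (2 * Lg / s)
  obtain ⟨J4, hJ4⟩ := exists_nat_ge (Real.log (m + 1) / (μ * Real.log 2))
  refine Bas.mono (max (max Jh J1) (max J2 (max J3 J4))) ((((hfr Kv).and hex).and
    ((hnp.and (hcx Kn)).and ((hV (max Kv Kn)).and (hP (max (max Mh Kv) Kn))))).and
    (((hH Mh).and ((hO₁ M1).and (hO₂ M2))).and (Pool.GRW.tmc_bas htm one_pos))) ?_
  rintro J hJ F A ⟨⟨⟨hfr, uv, huv⟩, ⟨hnp, hcx⟩, hV, hP⟩, ⟨hH, hO₁, hO₂⟩, hA, -⟩ V C z z' G₁ G₂ cc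
    hcc
  obtain ⟨hcc, hmx⟩ := hcc
  have hqG1 := hq1 J ((le_max_right _ _).trans ((le_max_left _ _).trans hJ)) F A V C z z' G₁ G₂ cc
    hcc
  have hqG2 := hq2 J ((le_max_left _ _).trans ((le_max_right _ _).trans hJ)) F A V C z z' G₁ G₂ cc
    hcc
  obtain ⟨pa, hpa, hpaC⟩ := hnp V C z z' G₁ G₂ cc hcc
  obtain ⟨Vx, zx, hzx, hxC⟩ := hcx V C z z' G₁ G₂ cc hcc pa hpa
  obtain ⟨V₀, C₀', V₁, z₀, z₀', Pa, Pb, c₀, z₁, z₁', g₁, Hp, φ₀, φ₁, h1, h2, h3, h4, h5, rfl, rfl,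
    h8, h9, h10, ⟨φ, h11⟩, ψ, h12⟩ := hcc
  have hJ0 : (0 : ℝ) ≤ J := Nat.cast_nonneg J
  have hql := isLaw_cond F.isLaw hA
  have hqA : ∀ ω, 0 < Pool.Agent.H49.Ent.cond F.p A True ω → A ω := fun ω h => of_cond_pos h
  have hne : ∃ ω, A ω := by
    by_contra hcon
    push Not at hcon
    have h1 := hql.sum_one
    rw [Finset.sum_eq_zero fun ω _ => ?_] at h1
    · exact zero_ne_one h1
    · by_contra h6
      exact hcon ω (hqA ω (lt_of_le_of_ne (hql.nonneg ω) (Ne.symm h6)))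
  obtain ⟨q, hq⟩ : ∃ q : F.Ω → ℝ, q = Pool.Agent.H49.Ent.cond F.p A True := ⟨_, rfl⟩
  have hmx2 := hmx.2
  rw [← hq] at hql hqA hpaC hxC hfr hV hP hH hO₁ hO₂ hmx2 ⊢
  have h0 := hql.nonneg
  have hW : ⌊w * J⌋₊ ≤ J := by
    refine (Nat.floor_le_floor (b := (J : ℝ)) ?_).trans (le_of_eq (Nat.floor_natCast J))
    nlinarith
  -- numbers
  have hJ3' : 2 * Lg ≤ s * J := by
    have a1 : J3 ≤ J := (le_max_left _ _).trans ((le_max_right _ _).trans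
      ((le_max_right _ _).trans hJ))
    have a2 : (J3 : ℝ) ≤ J := by exact_mod_cast a1
    have a3 := hJ3.trans a2
    rw [div_le_iff₀ hs0] at a3
    linarith
  have hlog2 : 0 < Real.log 2 := Real.log_pos (by norm_num)
  have hJ4' : Real.log (m + 1) ≤ μ * Real.log 2 * J := by
    have a1 : J4 ≤ J := (le_max_right _ _).trans ((le_max_right _ _).trans
      ((le_max_right _ _).trans hJ))
    have a2 : (J4 : ℝ) ≤ J := by exact_mod_cast a1
    have a3 := hJ4.trans a2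
    rw [div_le_iff₀ (by positivity)] at a3
    linarith
  have hlog : ∀ x : ℝ, x + μ ≤ 1 → Real.log (m + 1) ≤ (1 - x) * Real.log 2 * J := by
    intro x hx
    refine hJ4'.trans ?_
    have : μ * (Real.log 2 * J) ≤ (1 - x) * (Real.log 2 * J) :=
      mul_le_mul_of_nonneg_right (by linarith) (by positivity)
    linarith
  -- the position and the direction
  obtain ⟨g, hg⟩ : ∃ g : V → ℕ → MvPolynomial (Option (Fin m)) ℝ, g = fun v => g₁ (φ₁ v) :=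
    ⟨_, rfl⟩
  obtain ⟨ps, hps⟩ : ∃ ps : F.Ω → ℕ → ℤ, ps = psq F c r ⌊w * J⌋₊ K z' g X := ⟨_, rfl⟩
  obtain ⟨dr, hdr⟩ : ∃ dr : F.Ω → ℕ → ℕ → ℤ, dr = fun ω =>
    drq F c r ⌊w * J⌋₊ K z' g X (slam F ⌊w * J⌋₊ ω) := ⟨_, rfl⟩
  obtain ⟨zw, hzw⟩ : ∃ zw : F.Ω → V, zw = fun ω => z' (slam F ⌊w * J⌋₊ ω) := ⟨_, rfl⟩
  obtain ⟨cw, hcw⟩ : ∃ cw : F.Ω → C, cw = fun ω => cc (slam F ⌊w * J⌋₊ ω) := ⟨_, rfl⟩
  obtain ⟨hv, hhv⟩ : ∃ hv : ℕ → F.Ω → ℝ, hv = fun l ω =>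
    hgt F (c l) z' ⌊w * J⌋₊ (fun v => g₁ (φ₁ v) l) ω := ⟨_, rfl⟩
  have hvb : ∀ l ω, hv l ω = hgt F (c l) z₁' ⌊b * J⌋₊ (fun v => g₁ v l) ω := by
    intro l ω
    rw [hhv]
    exact hgt_same (g := fun v => g₁ v l) h5 ω
  have key : ∀ ω ω', zw ω = zw ω' → ps ω = ps ω' → F.W ω = F.W ω' → dr ω = dr ω' →
      cw ω = cw ω' := by
    intro ω ω' a1 a2 a3 a4
    have hT : F.T ω = F.T ω' := (Prod.ext_iff.mp a3).1
    rw [hps] at a2
    rw [hdr] at a4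
    have a5 := ps_det hT a2 a4
    rw [hcw]
    dsimp only
    rw [h12, h12]
    rw [hg] at a5
    rw [hzw] at a1
    dsimp only at a1
    rw [a1, a5]
  have key2 : ∀ ω ω', cw ω = cw ω' → F.W ω = F.W ω' → ps ω = ps ω' ∧ dr ω = dr ω' := by
    intro ω ω' a1 a3
    have hT : F.T ω = F.T ω' := (Prod.ext_iff.mp a3).1
    rw [hcw] at a1
    dsimp only at a1
    have a4 : pcd F c r K w X z' g (slam F ⌊w * J⌋₊ ω) =
        pcd F c r K w X z' g (slam F ⌊w * J⌋₊ ω') := by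
      rw [hg]
      show pcd F c r K w X z' (fun v => g₁ (φ₁ v)) _ = pcd F c r K w X z' (fun v => g₁ (φ₁ v)) _
      rw [h11, h11, a1]
    rw [hps, hdr]
    exact det_ps hT a4
  have near : ∀ ω, ∀ l < r, |(ps ω l : ℝ) - 2 ^ (X l 0 * J) * hv l ω| ≤ K + 4 := by
    intro ω l hl
    have a1 := ps_near (F := F) (c := c) (r := r) (K := K) (z' := z') (g := g) (X := X) hW hl
      (hX l hl) (ω := ω) (by
        rw [hg]
        exact (h2 l (Nat.zero_le _) (by omega)).deg _)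
    rw [hps, hhv]
    rw [hg] at a1 ⊢
    exact a1
  have hrJ : ∀ l < r + 2, ⌊(rd l + e) * J⌋₊ ≤ J := by
    intro l hl
    refine (Nat.floor_le_floor (b := (J : ℝ)) ?_).trans (le_of_eq (Nat.floor_natCast J))
    have := hr l hl
    nlinarith
  have pt : ∀ l < r + 2, ∀ N : ℝ, N + (E l + e) + μ ≤ 1 → ∀ ω ω', A ω → A ω' →
      ptr F J ω = ptr F J ω' → |(2 : ℝ) ^ (N * J) * hv l ω - 2 ^ (N * J) * hv l ω'| ≤ 3 := by
    intro l hl N hN ω ω' hω hω' hp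
    rw [hvb, hvb]
    exact hgt_pt (h2 l (Nat.zero_le _) hl) (hrJ l hl) (hE l hl)
      (by
        have := hlog (N + (E l + e)) (by linarith)
        rwa [← sub_sub] at this)
      hω hω' hp le_rfl (by linarith [hE l hl])
  have psn : ∀ ω ω', ∀ l < r, |(2 : ℝ) ^ (X l 0 * J) * hv l ω - 2 ^ (X l 0 * J) * hv l ω'| ≤ 3 →
      |((ps ω l - ps ω' l : ℤ) : ℝ)| ≤ 2 * K + 11 := by
    intro ω ω' l hl h
    have a1 := near ω l hl
    have a2 := near ω' l hl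
    push_cast
    rw [abs_le] at a1 a2 h ⊢
    constructor <;> linarith [a1.1, a1.2, a2.1, a2.2, h.1, h.2]
  have ps0 : ∀ ω, ∀ l, r ≤ l → ps ω l = 0 := by
    intro ω l hl
    rw [hps]
    unfold psq
    rw [if_neg (not_lt.2 hl)]
  -- the heights
  obtain ⟨H, hHd⟩ : ∃ H : F.Ω → ℕ → ℕ → ℤ, H = fun ω l j => if l < r ∧ j = 0 then
    ⌊(2 : ℝ) ^ (X l 0 * J) * hv l ω⌋ else 0 := ⟨_, rfl⟩
  have hHq : (htQ m c r b p (fun l => X l 0)).P Mh e J F A H := by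
    refine hht J ((le_max_left _ _).trans ((le_max_left _ _).trans hJ)) F A V₁ z₁ z₁' g₁ h2 H
      (fun ω hω l hl => ?_) (fun ω hω l j hn => ?_)
    · rw [hHd]
      dsimp only
      rw [if_pos ⟨hl, rfl⟩, hvb]
    · rw [hHd]
      dsimp only
      rw [if_neg hn]
  have hps_H : ∀ {T : Type} (R : F.Ω → T), CH q ps (fun ω => (H ω, R ω)) ≤ Lg := by
    intro T R
    have a1 := vec_ch hql (r := r) (c := 2 * K + 11) ps (fun ω => (H ω, R ω)) ps0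
      fun ω ω' _ _ hR l hl => ?_
    · rw [hLg]
      have e1 : (2 * (2 * (K : ℝ) + 11) + 1) = 4 * K + 23 := by ring
      rwa [e1] at a1
    · have a2 := congrFun (congrFun (Prod.ext_iff.1 hR).1 l) 0
      rw [hHd] at a2
      dsimp only at a2
      rw [if_pos ⟨hl, rfl⟩, if_pos ⟨hl, rfl⟩] at a2
      exact psn ω ω' l hl ((fl_eq a2).trans (by norm_num))
  have hH_ps : ∀ {T : Type} (R : F.Ω → T), Det q R ps → CH q H R ≤ Lg := by
    intro T R hR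
    have a1 := vec_ch hql (r := r) (c := 2 * K + 11) (fun ω l => H ω l 0) R
      (fun ω l hl => by
        rw [hHd]
        dsimp only
        rw [if_neg fun hh => absurd hh.1 (not_lt.2 hl)])
      fun ω ω' p1 p2 hh l hl => ?_
    · have e1 : (2 * (2 * (K : ℝ) + 11) + 1) = 4 * K + 23 := by ring
      rw [e1, ← hLg] at a1
      refine le_trans (CH_mono_left h0 fun ω ω' _ _ hh => ?_) a1
      have a3 := (Prod.ext_iff.1 hh).1
      funext l j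
      by_cases hj : j = 0
      · rw [hj]
        exact congrFun a3 l
      · rw [hHd]
        dsimp only
        rw [if_neg fun hh => hj hh.2, if_neg fun hh => hj hh.2]
    · have a2 := congrFun (hR ω ω' p1 p2 hh) l
      have a3 := near ω l hl
      have a4 := near ω' l hl
      rw [← a2] at a4
      have a5 : |(2 : ℝ) ^ (X l 0 * J) * hv l ω - 2 ^ (X l 0 * J) * hv l ω'| ≤ 2 * K + 10 := by
        rw [abs_le] at a3 a4 ⊢
        constructor <;> linarith [a3.1, a3.2, a4.1, a4.2]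
      have a6 := fl_dist a5
      rw [hHd]
      dsimp only
      rw [if_pos ⟨hl, rfl⟩, if_pos ⟨hl, rfl⟩]
      have e3 : 2 * (K : ℝ) + 10 + 1 = 2 * K + 11 := by ring
      rwa [e3] at a6
  obtain ⟨Ap, hAp⟩ : ∃ Ap : F.Ω → V × ((ℕ → ℤ) × (ℕ × F.ζ)), Ap = fun ω =>
    (zw ω, (ps ω, F.W ω)) := ⟨_, rfl⟩
  have hAp' : ∀ ω ω', Ap ω = Ap ω' → zw ω = zw ω' ∧ ps ω = ps ω' ∧ F.W ω = F.W ω' := by
    intro ω ω' h
    rw [hAp] at h
    exact ⟨(Prod.ext_iff.1 h).1, (Prod.ext_iff.1 (Prod.ext_iff.1 h).2).1,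
      (Prod.ext_iff.1 (Prod.ext_iff.1 h).2).2⟩
  have hzc : Cl2 (ptr F J) (vg w J F) A zw := by
    rw [hzw]
    exact hmx.1
  have hmxz : ∀ (V' : Type) (x : F.Ω → V'), Cl2 (ptr F J) (vg w J F) A x → CH q x zw ≤ k * J := by
    intro V' x hx
    rw [hzw]
    exact hmx2 V' x hx
  obtain ⟨V₃, z₃, hz₃⟩ := Pool.V1E.mx_any (fun J F => ptr F J) (vg w₁) hk (F := F) (A := A) hA
  obtain ⟨o₁, ho₁⟩ : ∃ o₁ : F.Ω → ℤ, o₁ = oj F (c r) z' (fun v => g₁ (φ₁ v) r) ⌊w * J⌋₊ P₁ 0 :=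
    ⟨_, rfl⟩
  obtain ⟨o₂, ho₂⟩ : ∃ o₂ : F.Ω → ℤ, o₂ = oj F (c (r + 1)) z' (fun v => g₁ (φ₁ v) (r + 1))
    ⌊w * J⌋₊ P₂ 0 := ⟨_, rfl⟩
  rw [← ho₁] at hqG1
  rw [← ho₂] at hqG2
  rw [← ho₁, ← ho₂]
  have d1 : ∀ ω ω', A ω → A ω' → ptr F J ω = ptr F J ω' → |((o₁ ω - o₁ ω' : ℤ) : ℝ)| ≤ 4 := by
    intro ω ω' hω hω' hp
    have a1 := fl_dist (pt r (by omega) P₁ n2 ω ω' hω hω' hp)
    rw [ho₁]
    rw [hhv] at a1
    rw [oj_zero_eq, oj_zero_eq]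
    have e3 : (3 : ℝ) + 1 = 4 := by norm_num
    rwa [e3] at a1
  have d2 : ∀ ω ω', A ω → A ω' → ptr F J ω = ptr F J ω' → |((o₂ ω - o₂ ω' : ℤ) : ℝ)| ≤ 4 := by
    intro ω ω' hω hω' hp
    have a1 := fl_dist (pt (r + 1) (by omega) P₂ n3 ω ω' hω hω' hp)
    rw [ho₂]
    rw [hhv] at a1
    rw [oj_zero_eq, oj_zero_eq]
    have e3 : (3 : ℝ) + 1 = 4 := by norm_num
    rwa [e3] at a1
  refine ⟨V × ((ℕ → ℤ) × (ℕ × F.ζ)), ℕ → ℕ → ℤ, Ap, dr, ?_, ?_, ?_, ?_, ?_⟩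
  · intro ω ω' _ _ a1 a2
    obtain ⟨b1, b2, b3⟩ := hAp' ω ω' a1
    have b4 := key ω ω' b1 b2 b3 a2
    rw [hzw] at b1
    rw [hcw] at b4
    exact ⟨b1, b4, b3⟩
  · intro ω ω' _ _ a1 a2 a3
    have b1 : cw ω = cw ω' := by
      rw [hcw]
      exact a2
    obtain ⟨b2, b3⟩ := key2 ω ω' b1 a3
    refine ⟨?_, b3⟩
    rw [hAp]
    refine Prod.ext ?_ (Prod.ext b2 a3)
    rw [hzw]
    exact a1
  · -- few values at a point
    obtain ⟨vv, hvv⟩ : ∃ vv : F.Ω → Fin (r + 2) → ℤ, vv = fun ω (l : Fin (r + 2)) =>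
      if (l : ℕ) < r then ps ω l else if (l : ℕ) = r then o₁ ω else o₂ ω := ⟨_, rfl⟩
    have t1 := ptl_of (B := 2 * K + 11) hne (fun ω => (zw ω, F.W ω)) vv
      (fun x v => (((x.1, ((fun l => if h : l < r then v ⟨l, by omega⟩ else 0), x.2)),
        (v ⟨r, by omega⟩, v ⟨r + 1, by omega⟩)) :
        (V × ((ℕ → ℤ) × (ℕ × F.ζ))) × (ℤ × ℤ))) ?_ ?_
    · have e1 : (fun ω => (fun (x : V × (ℕ × F.ζ)) (v : Fin (r + 2) → ℤ) =>
          (((x.1, ((fun l => if h : l < r then v ⟨l, by omega⟩ else 0), x.2)),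
          (v ⟨r, by omega⟩, v ⟨r + 1, by omega⟩)) :
          (V × ((ℕ → ℤ) × (ℕ × F.ζ))) × (ℤ × ℤ))) (zw ω, F.W ω) (vv ω)) =
          fun ω => (Ap ω, (o₁ ω, o₂ ω)) := by
        funext ω
        rw [hAp, hvv]
        dsimp only
        have e2 : (fun l => if h : l < r then (if l < r then ps ω l else if l = r then o₁ ω
            else o₂ ω) else 0) = ps ω := by
          funext l
          by_cases hl : l < r
          · rw [dif_pos hl, if_pos hl]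
          · rw [dif_neg hl, ps0 ω l (not_lt.1 hl)]
        rw [e2, if_neg (lt_irrefl r), if_pos rfl, if_neg (by omega), if_neg (by omega)]
      rw [e1] at t1
      have e3 : (2 * (2 * K + 11) + 1) ^ (r + 2) = (4 * K + 23) ^ (r + 2) := by ring
      rwa [e3] at t1
    · intro ω ω' hω hω' hp
      refine Prod.ext ?_ (ptr_eq hp).2.1
      show zw ω = zw ω'
      rw [hzw]
      show z' (slam F ⌊w * J⌋₊ ω) = z' (slam F ⌊w * J⌋₊ ω')
      rw [← h3 ω hω, ← h3 ω' hω', hp]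
    · intro ω ω' hω hω' hp l
      have a0 : (((2 * K + 11 : ℕ) : ℤ) : ℝ) = 2 * K + 11 := by push_cast; ring
      have a1 : |((vv ω l - vv ω' l : ℤ) : ℝ)| ≤ 2 * K + 11 := by
        rw [hvv]
        dsimp only
        by_cases hl : (l : ℕ) < r
        · rw [if_pos hl, if_pos hl]
          exact psn ω ω' l hl (pt l (by omega) _ (n1 l hl) ω ω' hω hω' hp)
        · have hK0 : (0 : ℝ) ≤ K := Nat.cast_nonneg K
          rw [if_neg hl, if_neg hl]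
          by_cases hl2 : (l : ℕ) = r
          · rw [if_pos hl2, if_pos hl2]
            exact (d1 ω ω' hω hω' hp).trans (by linarith)
          · rw [if_neg hl2, if_neg hl2]
            exact (d2 ω ω' hω hω' hp).trans (by linarith)
      rw [← a0] at a1
      exact_mod_cast a1
  · -- the position given the label and the exact coordinates
    obtain ⟨R, hR⟩ : ∃ R : F.Ω → V × ((Fin m → ℤ) × (ℕ × F.ζ)), R = fun ω =>
      (z' (slam F ⌊w * J⌋₊ ω), (ceI I₀ (fun _ => J) (F.x ω), F.W ω)) := ⟨_, rfl⟩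
    rw [← hR]
    have a1 : CH q Ap R ≤ CH q ps R := by
      refine CH_mono_left h0 fun ω ω' _ _ hh => ?_
      obtain ⟨b1, b2⟩ := Prod.ext_iff.1 hh
      dsimp only at b1 b2
      rw [hR] at b2
      rw [hAp, hzw]
      exact Prod.ext (Prod.ext_iff.1 b2).1 (Prod.ext b1 (Prod.ext_iff.1 (Prod.ext_iff.1 b2).2).2)
    have a2 := vec_ch hql (r := r) (c := 2 * K + 11) ps R ps0 fun ω ω' p1 p2 hh l hl => ?_
    · have e1 : (2 * (2 * (K : ℝ) + 11) + 1) = 4 * K + 23 := by ring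
      rw [e1, ← hLg] at a2
      have a3 : s * J ≤ δ * J := mul_le_mul_of_nonneg_right hsδ hJ0
      linarith
    · rw [hR] at hh
      obtain ⟨b1, b2⟩ := Prod.ext_iff.1 hh
      obtain ⟨b3, b4⟩ := Prod.ext_iff.1 b2
      dsimp only at b1 b3 b4
      refine psn ω ω' l hl ?_
      have hT : F.T ω = F.T ω' := (Prod.ext_iff.mp b4).1
      have c0 : ∀ i ∈ I₀, ⌊(2 : ℝ) ^ J * F.x ω i⌋ = ⌊(2 : ℝ) ^ J * F.x ω' i⌋ := by
        intro i hi
        have := congrFun b3 i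
        unfold ceI at this
        rwa [if_pos hi, if_pos hi] at this
      have c1 : ceI ((range l).image c) (fun _ => J) (F.x ω) =
          ceI ((range l).image c) (fun _ => J) (F.x ω') := by
        funext i
        unfold ceI
        by_cases hi : i ∈ (range l).image c
        · rw [if_pos hi, if_pos hi]
          obtain ⟨t, ht, rfl⟩ := Finset.mem_image.1 hi
          exact c0 _ (hI t (by
            have := Finset.mem_range.1 ht
            omega))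
        · rw [if_neg hi, if_neg hi]
      have c2 : z₁' (slam F ⌊b * J⌋₊ ω) = z₁' (slam F ⌊b * J⌋₊ ω') := by
        rw [← h5 ω, ← h5 ω', b1]
      have c3 := hgt_near (h2 l (Nat.zero_le _) (by omega)) (hrJ l (by omega))
        (hE l (by omega)) (N := X l 0) (by
          have := hlog (X l 0 + (E l + e)) (by linarith [n1 l hl])
          rwa [← sub_sub] at this) (hqA ω p1) (hqA ω' p2) c1 c2 hT (s := X l 0) le_rfl
      have c4 : |(2 : ℝ) ^ (X l 0 * J) * (F.x ω (c l) - F.x ω' (c l))| ≤ 1 := by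
        have h4 := Pool.OWN68.fl_scale (B := 1) (t := (2 : ℝ) ^ J) (s := (2 : ℝ) ^ (X l 0 * J))
          (Real.rpow_pos_of_pos (by norm_num) _).le (by
            rw [one_mul, ← Real.rpow_natCast]
            refine Real.rpow_le_rpow_of_exponent_le (by norm_num) ?_
            have := n1 l hl
            have := hE l (by omega)
            nlinarith) (by positivity) (c0 (c l) (hI l hl))
        rwa [← mul_sub] at h4
      rw [hvb, hvb]
      rw [abs_le] at c3 c4 ⊢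
      constructor <;> linarith [c3.1, c3.2, c4.1, c4.2]
  · -- free
    obtain ⟨V₂, z₂, hz₂, hVc⟩ := hV pa uv (Qp.mono (le_max_right _ _) le_rfl hpa)
      (QV.mono (le_max_left _ _) le_rfl huv)
    obtain ⟨V₄, z₄, hz₄, hPc⟩ := hP (fun ω => (H ω, uv ω)) pa
      ⟨(htQ m c r b p (fun l => X l 0)).mono ((le_max_left _ _).trans (le_max_left _ _)) le_rfl
        hHq, QV.mono ((le_max_right _ _).trans (le_max_left _ _)) le_rfl huv⟩
      (Qp.mono (le_max_right _ _) le_rfl hpa)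
    obtain ⟨V₅, z₅, hz₅, hHc⟩ := hH H hHq
    obtain ⟨V₆, z₆, hz₆, hO1c⟩ := hO₁ o₁ hqG1
    obtain ⟨V₇, z₇, hz₇, hO2c⟩ := hO₂ o₂ hqG2
    have hfree := hfr V zw V₃ z₃ (by rw [hzw]; exact hmx) hz₃ uv huv
    have hmx3 : ∀ (V' : Type) (x : F.Ω → V'), Cl2 (ptr F J) (vg w₁ J F) A x →
        CH q x z₃ ≤ k * J := by
      intro V' x hx
      rw [hq]
      exact hz₃.2 V' x hx
    have hxC' : CH q cw (fun ω => (pa ω, (zx ω, F.W ω))) ≤ δx * J := by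
      rw [hcw]
      exact hxC
    have f1 : CH q dr (fun ω => (uv ω, Ap ω)) ≤ (c₂ + δx + 2 * k) * J + Lg := by
      obtain ⟨R, hR⟩ : ∃ R : F.Ω → Uv × (V × ((ℕ → ℤ) × (ℕ × F.ζ))), R = fun ω =>
        (uv ω, Ap ω) := ⟨_, rfl⟩
      have hR' : ∀ ω ω', R ω = R ω' → uv ω = uv ω' ∧ zw ω = zw ω' ∧ ps ω = ps ω' ∧
          F.W ω = F.W ω' := by
        intro ω ω' h
        rw [hR] at h
        exact ⟨(Prod.ext_iff.1 h).1, hAp' ω ω' (Prod.ext_iff.1 h).2⟩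
      rw [← hR]
      have s1 : CH q dr R ≤ CH q cw R := CH_mono_left h0 fun ω ω' _ _ hh =>
        (key2 ω ω' (Prod.ext_iff.1 hh).1 (hR' ω ω' (Prod.ext_iff.1 hh).2).2.2.2).2
      have s2 := CH_le_add h0 cw H R
      have s3 := hH_ps R fun ω ω' _ _ hh => (hR' ω ω' hh).2.2.1
      have s4 := CH_le_add h0 cw pa (fun ω => (H ω, R ω))
      have s5 := use_mx h0 pa (fun ω => (H ω, R ω)) zw z₄
        (fun ω => ((H ω, uv ω), (z₄ ω, F.W ω)))
        (fun ω ω' _ _ hh => (hR' ω ω' (Prod.ext_iff.1 hh).2).2.1)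
        (fun ω ω' _ _ hh => by
          obtain ⟨a1, a2⟩ := Prod.ext_iff.1 hh
          obtain ⟨a3, a4⟩ := Prod.ext_iff.1 a2
          obtain ⟨a5, -, -, a6⟩ := hR' ω ω' a4
          exact Prod.ext (Prod.ext a3 a5) (Prod.ext a1 a6)) (hmxz V₄ z₄ hz₄)
      have s6 := use_mx h0 cw (fun ω => (pa ω, (H ω, R ω))) zw zx
        (fun ω => (pa ω, (zx ω, F.W ω)))
        (fun ω ω' _ _ hh => (hR' ω ω' (Prod.ext_iff.1 (Prod.ext_iff.1 hh).2).2).2.1)
        (fun ω ω' _ _ hh => by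
          obtain ⟨a1, a2⟩ := Prod.ext_iff.1 hh
          obtain ⟨a3, a4⟩ := Prod.ext_iff.1 a2
          obtain ⟨-, -, -, a6⟩ := hR' ω ω' (Prod.ext_iff.1 a4).2
          exact Prod.ext a3 (Prod.ext a1 a6)) (hmxz Vx zx hzx)
      linarith
    have f2 : CH q uv (fun ω => (dr ω, Ap ω)) ≤ (δn + c₁ + k) * J := by
      obtain ⟨R, hR⟩ : ∃ R : F.Ω → (ℕ → ℕ → ℤ) × (V × ((ℕ → ℤ) × (ℕ × F.ζ))), R = fun ω =>
        (dr ω, Ap ω) := ⟨_, rfl⟩
      have hR' : ∀ ω ω', R ω = R ω' → dr ω = dr ω' ∧ zw ω = zw ω' ∧ ps ω = ps ω' ∧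
          F.W ω = F.W ω' := by
        intro ω ω' h
        rw [hR] at h
        exact ⟨(Prod.ext_iff.1 h).1, hAp' ω ω' (Prod.ext_iff.1 h).2⟩
      rw [← hR]
      have s1 := CH_le_add h0 uv pa R
      have s2 : CH q pa R ≤ δn * J := by
        refine (CH_mono_cond h0 fun ω ω' _ _ hh => ?_).trans hpaC
        obtain ⟨a1, a2, a3, a4⟩ := hR' ω ω' hh
        have a5 := key ω ω' a2 a3 a4 a1
        rw [hzw] at a2
        rw [hcw] at a5
        exact Prod.ext a2 (Prod.ext a5 a4)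
      have s3 := use_mx h0 uv (fun ω => (pa ω, R ω)) zw z₂
        (fun ω => (pa ω, (z₂ ω, F.W ω)))
        (fun ω ω' _ _ hh => (hR' ω ω' (Prod.ext_iff.1 hh).2).2.1)
        (fun ω ω' _ _ hh => by
          obtain ⟨a1, a2⟩ := Prod.ext_iff.1 hh
          obtain ⟨a3, a4⟩ := Prod.ext_iff.1 a2
          exact Prod.ext a3 (Prod.ext a1 (hR' ω ω' a4).2.2.2)) (hmxz V₂ z₂ hz₂)
      linarith
    have f3 : CH q (fun ω => (Ap ω, (o₁ ω, o₂ ω))) (fun ω => (z₃ ω, F.W ω)) ≤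
        (η₀ + η₁ + η₂ + 4 * k) * J + Lg := by
      obtain ⟨R, hR⟩ : ∃ R : F.Ω → V₃ × (ℕ × F.ζ), R = fun ω => (z₃ ω, F.W ω) := ⟨_, rfl⟩
      have hR' : ∀ ω ω', R ω = R ω' → z₃ ω = z₃ ω' ∧ F.W ω = F.W ω' := by
        intro ω ω' h
        rw [hR] at h
        exact Prod.ext_iff.1 h
      rw [← hR]
      have s1 : CH q (fun ω => (Ap ω, (o₁ ω, o₂ ω))) R ≤
          CH q (fun ω => (zw ω, (o₁ ω, (o₂ ω, ps ω)))) R := by
        refine CH_mono_left h0 fun ω ω' _ _ hh => ?_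
        obtain ⟨a1, a2⟩ := Prod.ext_iff.1 hh
        simp only [Prod.mk.injEq] at a1
        obtain ⟨a3, a4, a5, a6⟩ := a1
        rw [hAp]
        exact Prod.ext (Prod.ext a3 (Prod.ext a6 (hR' ω ω' a2).2)) (Prod.ext a4 a5)
      have s2 := ch_pair2 h0 zw (fun ω => (o₁ ω, (o₂ ω, ps ω))) R
      have s3 := ch_pair2 h0 o₁ (fun ω => (o₂ ω, ps ω)) R
      have s4 := ch_pair2 h0 o₂ ps R
      have s5 : CH q zw R ≤ k * J :=
        (CH_mono_cond h0 fun ω ω' _ _ hh => (hR' ω ω' hh).1).trans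
          (hmx3 V zw (cl2_vg (f := fun J F => ptr F J) hww hw1 hzc))
      have s6 := use_mx h0 H R z₃ z₅ (fun ω => (z₅ ω, F.W ω))
        (fun ω ω' _ _ hh => (hR' ω ω' hh).1)
        (fun ω ω' _ _ hh => Prod.ext (Prod.ext_iff.1 hh).1
          (hR' ω ω' (Prod.ext_iff.1 hh).2).2) (hmx3 V₅ z₅ hz₅)
      have s7 := use_mx h0 o₁ R z₃ z₆ (fun ω => (z₆ ω, F.W ω))
        (fun ω ω' _ _ hh => (hR' ω ω' hh).1)
        (fun ω ω' _ _ hh => Prod.ext (Prod.ext_iff.1 hh).1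
          (hR' ω ω' (Prod.ext_iff.1 hh).2).2) (hmx3 V₆ z₆ hz₆)
      have s8 := use_mx h0 o₂ R z₃ z₇ (fun ω => (z₇ ω, F.W ω))
        (fun ω ω' _ _ hh => (hR' ω ω' hh).1)
        (fun ω ω' _ _ hh => Prod.ext (Prod.ext_iff.1 hh).1
          (hR' ω ω' (Prod.ext_iff.1 hh).2).2) (hmx3 V₇ z₇ hz₇)
      have s9 := CH_le_add h0 ps H R
      have s10 := hps_H R
      linarith
    have fin := fr_ent h0 uv dr Ap (fun ω => (o₁ ω, o₂ ω)) zw z₃ F.W
      (fun ω ω' _ _ hh => Prod.ext (hAp' ω ω' hh).1 (hAp' ω ω' hh).2.2) hfree f1 f2 f3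
    refine fin.trans ?_
    have s11 := mul_le_mul_of_nonneg_right hsd hJ0
    linarith

end

end Pool.FR60
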