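import Pool.Agent.H63.AB.Fam
import Pool.Agent.H64.K2.Plk2

/-!
# Position and direction of a near path in coefficient form

The code `pcd` of a chain of labels is the vector of the rounded coefficients of the own paths.
`psq`: the position, the rounded value at the time of the sample; `drq`: the direction, the
coefficients of order at least one. `ps_det`, `det_ps`: position, direction and time determine the
code and conversely. `ps_near`: the position is near the height. `ptl_of`: few values at a point.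
-/

set_option autoImplicit false

namespace Pool.FR60

open Finset Real MvPolynomial
open Pool.Agent.H49.Ent Pool.Agent.H32.Dense Pool.STK Pool.KA Pool.KSAT Pool.K2S Pool.PB Pool.GEN
open Pool.S6C Pool.RCD Pool.LA91 Pool.OWN68 Pool.LPK12 Pool.TE46
open Pool.AB63 Pool.AJX
open Pool.UNJ (ceI)

variable {m J : ℕ}

/-- **The position** over the labels of the chain, from the coefficients: the coefficient `j` of the
place `l` has `X l j` digits, the position has `X l 0` digits. -/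
noncomputable def psq (F : Fam m J) (c : ℕ → Fin m) (r W K : ℕ) {V : Type} (z' : LnT F → V)
    (g : V → ℕ → MvPolynomial (Option (Fin m)) ℝ) (X : ℕ → ℕ → ℝ) (ω : F.Ω) (l : ℕ) : ℤ :=
  if l < r then ⌊jr F W (2 ^ (X l 0 * J)) (c l) z' (fun v => g v l) 0 (slam F W ω)⌋ +
    ⌊∑ j ∈ Ico 1 (K + 3), (2 : ℝ) ^ ((X l 0 - X l j) * J) *
      (⌊jr F W (2 ^ (X l j * J)) (c l) z' (fun v => g v l) j (slam F W ω)⌋ : ℝ) *
      uw F W ω ^ j⌋ else 0

/-- **The direction**: the coefficients of order at least one. -/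
noncomputable def drq (F : Fam m J) (c : ℕ → Fin m) (r W K : ℕ) {V : Type} (z' : LnT F → V)
    (g : V → ℕ → MvPolynomial (Option (Fin m)) ℝ) (X : ℕ → ℕ → ℝ) (x : LnT F) (l j : ℕ) : ℤ :=
  if (l < r ∧ 1 ≤ j) ∧ j < K + 3 then
    ⌊jr F W (2 ^ (X l j * J)) (c l) z' (fun v => g v l) j x⌋ else 0

section

variable {F : Fam m J} {c : ℕ → Fin m} {r K : ℕ} {w : ℝ} {V : Type} {z' : LnT F → V}
  {g : V → ℕ → MvPolynomial (Option (Fin m)) ℝ} {X : ℕ → ℕ → ℝ}

theorem uw_eq {W : ℕ} {ω ω' : F.Ω} (hT : F.T ω = F.T ω') : uw F W ω = uw F W ω' := by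
  unfold uw tw
  rw [hT]

/-- **Position, direction and time determine the code.** -/
theorem ps_det {ω ω' : F.Ω} (hT : F.T ω = F.T ω')
    (h1 : psq F c r ⌊w * J⌋₊ K z' g X ω = psq F c r ⌊w * J⌋₊ K z' g X ω')
    (h2 : drq F c r ⌊w * J⌋₊ K z' g X (slam F ⌊w * J⌋₊ ω) =
      drq F c r ⌊w * J⌋₊ K z' g X (slam F ⌊w * J⌋₊ ω')) :
    pcd F c r K w X z' g (slam F ⌊w * J⌋₊ ω) = pcd F c r K w X z' g (slam F ⌊w * J⌋₊ ω') := by
  have hj : ∀ l < r, ∀ j, 1 ≤ j → j < K + 3 →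
      ⌊jr F ⌊w * J⌋₊ (2 ^ (X l j * J)) (c l) z' (fun v => g v l) j (slam F ⌊w * J⌋₊ ω)⌋ =
      ⌊jr F ⌊w * J⌋₊ (2 ^ (X l j * J)) (c l) z' (fun v => g v l) j (slam F ⌊w * J⌋₊ ω')⌋ := by
    intro l hl j hj1 hj2
    have h3 := congrFun (congrFun h2 l) j
    unfold drq at h3
    rw [if_pos ⟨⟨hl, hj1⟩, hj2⟩, if_pos ⟨⟨hl, hj1⟩, hj2⟩] at h3
    exact h3
  funext l j
  unfold pcd
  by_cases hc : l < r ∧ j < K + 3
  · rw [if_pos hc, if_pos hc]
    rcases Nat.eq_zero_or_pos j with rfl | hj0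
    · have h3 := congrFun h1 l
      unfold psq at h3
      rw [if_pos hc.1, if_pos hc.1] at h3
      have h4 : ∑ j ∈ Ico 1 (K + 3), (2 : ℝ) ^ ((X l 0 - X l j) * J) *
          (⌊jr F ⌊w * J⌋₊ (2 ^ (X l j * J)) (c l) z' (fun v => g v l) j
          (slam F ⌊w * J⌋₊ ω)⌋ : ℝ) * uw F ⌊w * J⌋₊ ω ^ j = ∑ j ∈ Ico 1 (K + 3),
          (2 : ℝ) ^ ((X l 0 - X l j) * J) *
          (⌊jr F ⌊w * J⌋₊ (2 ^ (X l j * J)) (c l) z' (fun v => g v l) j
          (slam F ⌊w * J⌋₊ ω')⌋ : ℝ) * uw F ⌊w * J⌋₊ ω' ^ j := by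
        refine Finset.sum_congr rfl fun j hjm => ?_
        rw [Finset.mem_Ico] at hjm
        rw [hj l hc.1 j hjm.1 hjm.2, uw_eq hT]
      rw [h4] at h3
      linarith
    · exact hj l hc.1 j hj0 hc.2
  · rw [if_neg hc, if_neg hc]

/-- **The code and the time determine position and direction.** -/
theorem det_ps {ω ω' : F.Ω} (hT : F.T ω = F.T ω')
    (h : pcd F c r K w X z' g (slam F ⌊w * J⌋₊ ω) = pcd F c r K w X z' g (slam F ⌊w * J⌋₊ ω')) :
    psq F c r ⌊w * J⌋₊ K z' g X ω = psq F c r ⌊w * J⌋₊ K z' g X ω' ∧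
      drq F c r ⌊w * J⌋₊ K z' g X (slam F ⌊w * J⌋₊ ω) =
        drq F c r ⌊w * J⌋₊ K z' g X (slam F ⌊w * J⌋₊ ω') := by
  have hj : ∀ l < r, ∀ j, j < K + 3 →
      ⌊jr F ⌊w * J⌋₊ (2 ^ (X l j * J)) (c l) z' (fun v => g v l) j (slam F ⌊w * J⌋₊ ω)⌋ =
      ⌊jr F ⌊w * J⌋₊ (2 ^ (X l j * J)) (c l) z' (fun v => g v l) j (slam F ⌊w * J⌋₊ ω')⌋ := by
    intro l hl j hj2
    have h3 := congrFun (congrFun h l) j
    unfold pcd at h3
    rw [if_pos ⟨hl, hj2⟩, if_pos ⟨hl, hj2⟩] at h3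
    exact h3
  constructor
  · funext l
    unfold psq
    by_cases hl : l < r
    · rw [if_pos hl, if_pos hl, hj l hl 0 (by omega)]
      congr 2
      refine Finset.sum_congr rfl fun j hjm => ?_
      rw [Finset.mem_Ico] at hjm
      rw [hj l hl j hjm.2, uw_eq hT]
    · rw [if_neg hl, if_neg hl]
  · funext l j
    unfold drq
    by_cases hc : (l < r ∧ 1 ≤ j) ∧ j < K + 3
    · rw [if_pos hc, if_pos hc]
      exact hj l hc.1.1 j hc.2
    · rw [if_neg hc, if_neg hc]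

/-- **The position is near the height.** -/
theorem ps_near {W : ℕ} (hW : W ≤ J) {l : ℕ} (hl : l < r)
    (hX : ∀ j, 1 ≤ j → X l 0 ≤ X l j) {ω : F.Ω}
    (hdeg : (g (z' (slam F W ω)) l).totalDegree ≤ K) :
    |(psq F c r W K z' g X ω l : ℝ) - 2 ^ (X l 0 * J) * hgt F (c l) z' W (fun v => g v l) ω| ≤
      K + 4 := by
  have hJ0 : (0 : ℝ) ≤ J := Nat.cast_nonneg J
  have hd : (MvPolynomial.X (some (c l)) - g (z' (slam F W ω)) l).totalDegree ≤ K + 2 := by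
    refine (MvPolynomial.totalDegree_sub _ _).trans (max_le ?_ ?_)
    · exact (totalDegree_X _).le.trans (by omega)
    · exact hdeg.trans (by omega)
  obtain ⟨R, hR⟩ : ∃ R : Polynomial ℝ, R = jR F W (2 ^ (X l 0 * J)) (c l) z' (fun v => g v l)
    (slam F W ω) := ⟨_, rfl⟩
  have h1 := jR_jet (F := F) (σ := (2 : ℝ) ^ (X l 0 * J)) (κ := c l) (zl := z')
    (G := fun v => g v l) hW ω 0
  rw [Function.iterate_zero, id, pow_zero, mul_one, ← hR] at h1
  have hdR : R.natDegree < K + 3 := by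
    rw [hR]
    exact lt_of_le_of_lt ((Polynomial.natDegree_C_mul_le ((2 : ℝ) ^ (X l 0 * J)) _).trans
      (natDegree_opl F W hd (slam F W ω))) (by omega)
  rw [Polynomial.eval_eq_sum_range' hdR] at h1
  have hco : ∀ j, R.coeff j = 2 ^ ((X l 0 - X l j) * J) *
      jr F W (2 ^ (X l j * J)) (c l) z' (fun v => g v l) j (slam F W ω) := by
    intro j
    rw [hR]
    unfold jr jR
    rw [Polynomial.coeff_C_mul, Polynomial.coeff_C_mul, ← mul_assoc, ← Real.rpow_add (by norm_num)]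
    congr 2
    ring
  have hu := uw_abs F W ω
  have h2 : |(⌊jr F W (2 ^ (X l 0 * J)) (c l) z' (fun v => g v l) 0 (slam F W ω)⌋ : ℝ) +
      ∑ j ∈ Ico 1 (K + 3), (2 : ℝ) ^ ((X l 0 - X l j) * J) *
        (⌊jr F W (2 ^ (X l j * J)) (c l) z' (fun v => g v l) j (slam F W ω)⌋ : ℝ) *
        uw F W ω ^ j - ∑ j ∈ range (K + 3), R.coeff j * uw F W ω ^ j| ≤ K + 3 := by
    rw [Finset.range_eq_Ico, Finset.sum_eq_sum_Ico_succ_bot (by omega : 0 < K + 3)]
    have e1 : (⌊jr F W (2 ^ (X l 0 * J)) (c l) z' (fun v => g v l) 0 (slam F W ω)⌋ : ℝ) +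
      ∑ j ∈ Ico 1 (K + 3), (2 : ℝ) ^ ((X l 0 - X l j) * J) *
        (⌊jr F W (2 ^ (X l j * J)) (c l) z' (fun v => g v l) j (slam F W ω)⌋ : ℝ) *
        uw F W ω ^ j - (R.coeff 0 * uw F W ω ^ 0 + ∑ j ∈ Ico (0 + 1) (K + 3),
        R.coeff j * uw F W ω ^ j) =
      ((⌊jr F W (2 ^ (X l 0 * J)) (c l) z' (fun v => g v l) 0 (slam F W ω)⌋ : ℝ) -
        jr F W (2 ^ (X l 0 * J)) (c l) z' (fun v => g v l) 0 (slam F W ω)) +
      ∑ j ∈ Ico 1 (K + 3), (2 : ℝ) ^ ((X l 0 - X l j) * J) *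
        ((⌊jr F W (2 ^ (X l j * J)) (c l) z' (fun v => g v l) j (slam F W ω)⌋ : ℝ) -
        jr F W (2 ^ (X l j * J)) (c l) z' (fun v => g v l) j (slam F W ω)) *
        uw F W ω ^ j := by
      have e2 : R.coeff 0 = jr F W (2 ^ (X l 0 * J)) (c l) z' (fun v => g v l) 0
          (slam F W ω) := by
        rw [hco 0, sub_self, zero_mul, Real.rpow_zero, one_mul]
      have e3 : ∑ j ∈ Ico (0 + 1) (K + 3), R.coeff j * uw F W ω ^ j =
          ∑ j ∈ Ico 1 (K + 3), (2 : ℝ) ^ ((X l 0 - X l j) * J) *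
          jr F W (2 ^ (X l j * J)) (c l) z' (fun v => g v l) j (slam F W ω) *
          uw F W ω ^ j := Finset.sum_congr rfl fun j _ => by rw [hco j]
      have e4 : ∑ j ∈ Ico 1 (K + 3), (2 : ℝ) ^ ((X l 0 - X l j) * J) *
          ((⌊jr F W (2 ^ (X l j * J)) (c l) z' (fun v => g v l) j (slam F W ω)⌋ : ℝ) -
          jr F W (2 ^ (X l j * J)) (c l) z' (fun v => g v l) j (slam F W ω)) *
          uw F W ω ^ j = ∑ j ∈ Ico 1 (K + 3), (2 : ℝ) ^ ((X l 0 - X l j) * J) *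
          (⌊jr F W (2 ^ (X l j * J)) (c l) z' (fun v => g v l) j (slam F W ω)⌋ : ℝ) *
          uw F W ω ^ j - ∑ j ∈ Ico 1 (K + 3), (2 : ℝ) ^ ((X l 0 - X l j) * J) *
          jr F W (2 ^ (X l j * J)) (c l) z' (fun v => g v l) j (slam F W ω) *
          uw F W ω ^ j := by
        rw [← Finset.sum_sub_distrib]
        exact Finset.sum_congr rfl fun j _ => by ring
      rw [e2, e3, e4, pow_zero, mul_one]
      ring
    rw [e1]
    refine (abs_add_le _ _).trans ?_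
    have a1 := fl_one (jr F W (2 ^ (X l 0 * J)) (c l) z' (fun v => g v l) 0 (slam F W ω))
    have a2 : |∑ j ∈ Ico 1 (K + 3), (2 : ℝ) ^ ((X l 0 - X l j) * J) *
        ((⌊jr F W (2 ^ (X l j * J)) (c l) z' (fun v => g v l) j (slam F W ω)⌋ : ℝ) -
        jr F W (2 ^ (X l j * J)) (c l) z' (fun v => g v l) j (slam F W ω)) *
        uw F W ω ^ j| ≤ K + 2 := by
      refine (Finset.abs_sum_le_sum_abs _ _).trans ?_
      have a3 : ∀ j ∈ Ico 1 (K + 3), |(2 : ℝ) ^ ((X l 0 - X l j) * J) *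
          ((⌊jr F W (2 ^ (X l j * J)) (c l) z' (fun v => g v l) j (slam F W ω)⌋ : ℝ) -
          jr F W (2 ^ (X l j * J)) (c l) z' (fun v => g v l) j (slam F W ω)) *
          uw F W ω ^ j| ≤ 1 := by
        intro j hj
        rw [Finset.mem_Ico] at hj
        rw [abs_mul, abs_mul, abs_pow]
        have b1 : |(2 : ℝ) ^ ((X l 0 - X l j) * J)| ≤ 1 := by
          rw [abs_of_pos (Real.rpow_pos_of_pos (by norm_num) _)]
          refine Real.rpow_le_one_of_one_le_of_nonpos (by norm_num) ?_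
          exact mul_nonpos_of_nonpos_of_nonneg (by linarith [hX j hj.1]) hJ0
        have b2 := fl_one (jr F W (2 ^ (X l j * J)) (c l) z' (fun v => g v l) j (slam F W ω))
        rw [abs_sub_comm] at b2
        have b3 : |uw F W ω| ^ j ≤ 1 := pow_le_one₀ (abs_nonneg _) hu
        exact mul_le_one₀ (mul_le_one₀ b1 (abs_nonneg _) b2) (by positivity) b3
      refine (Finset.sum_le_sum a3).trans (le_of_eq ?_)
      rw [Finset.sum_const, Nat.card_Ico, nsmul_eq_mul, mul_one]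
      push_cast
      ring
    rw [abs_sub_comm] at a1
    linarith
  rw [h1] at h2
  have e5 : (2 : ℝ) ^ (X l 0 * J) * ojet F (c l) 0 ((fun v => g v l) (z' (slam F W ω))) ω =
      2 ^ (X l 0 * J) * hgt F (c l) z' W (fun v => g v l) ω := rfl
  rw [e5] at h2
  unfold psq
  rw [if_pos hl]
  obtain ⟨S, hS⟩ : ∃ S : ℝ, S = ∑ j ∈ Ico 1 (K + 3), (2 : ℝ) ^ ((X l 0 - X l j) * J) *
    (⌊jr F W (2 ^ (X l j * J)) (c l) z' (fun v => g v l) j (slam F W ω)⌋ : ℝ) *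
    uw F W ω ^ j := ⟨_, rfl⟩
  rw [← hS] at h2 ⊢
  have f1 := Int.floor_le S
  have f2 := Int.lt_floor_add_one S
  push_cast
  rw [abs_le] at h2 ⊢
  constructor <;> linarith [h2.1, h2.2]

end

theorem ptr_eq {F : Fam m J} {ω ω' : F.Ω} (h : ptr F J ω = ptr F J ω') :
    F.X J ω = F.X J ω' ∧ F.W ω = F.W ω' ∧ F.T ω = F.T ω' := by
  have h1 := Prod.ext_iff.1 h
  exact ⟨h1.1, h1.2, (Prod.ext_iff.1 h1.2).1⟩

/-- **The height is near at a point.** -/
theorem hgt_pt {F : Fam m J} {I : Finset (Fin m)} {κ : Fin m} {K W ρ P : ℕ} {A : F.Ω → Prop}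
    {V : Type} {z : PtT F → V} {z' : LnT F → V} {G : V → MvPolynomial (Option (Fin m)) ℝ}
    {e N : ℝ} (hlb : LbOK F I κ K ⌊e * J⌋₊ J W ρ P A z z' G) (hρ : ρ ≤ J) (he : 0 ≤ e)
    (hsm : Real.log (m + 1) ≤ (1 - N - e) * Real.log 2 * J) {ω ω' : F.Ω} (hω : A ω) (hω' : A ω')
    (h : ptr F J ω = ptr F J ω') {s : ℝ} (hs : s ≤ N) (hs1 : s ≤ 1) :
    |(2 : ℝ) ^ (s * J) * hgt F κ z' W G ω - 2 ^ (s * J) * hgt F κ z' W G ω'| ≤ 3 := by
  obtain ⟨h1, -, hT⟩ := ptr_eq h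
  have hx : ∀ i : Fin m, ⌊(2 : ℝ) ^ J * F.x ω i⌋ = ⌊(2 : ℝ) ^ J * F.x ω' i⌋ := fun i => by
    have := congrFun h1 i
    exact this
  have e1 : ceI I (fun _ => J) (F.x ω) = ceI I (fun _ => J) (F.x ω') := by
    funext i
    unfold ceI
    rw [hx i]
  have e2 : z' (slam F W ω) = z' (slam F W ω') := by
    rw [← hlb.cls ω hω, ← hlb.cls ω' hω', h]
  have h2 := hgt_near hlb hρ he hsm hω hω' e1 e2 hT hs
  have h3 : |(2 : ℝ) ^ (s * J) * (F.x ω κ - F.x ω' κ)| ≤ 1 := by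
    have h4 := Pool.OWN68.fl_scale (B := 1) (t := (2 : ℝ) ^ J) (s := (2 : ℝ) ^ (s * J))
      (Real.rpow_pos_of_pos (by norm_num) _).le (by
        rw [one_mul, ← Real.rpow_natCast]
        refine Real.rpow_le_rpow_of_exponent_le (by norm_num) ?_
        have hJ0 : (0 : ℝ) ≤ J := Nat.cast_nonneg J
        nlinarith) (by positivity) (hx κ)
    rwa [← mul_sub] at h4
  have h5 : (2 : ℝ) ^ (s * J) * hgt F κ z' W G ω - 2 ^ (s * J) * hgt F κ z' W G ω' =
      (2 ^ (s * J) * (hgt F κ z' W G ω - hgt F κ z' W G ω') - 2 ^ (s * J) * (F.x ω κ - F.x ω' κ)) +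
      2 ^ (s * J) * (F.x ω κ - F.x ω' κ) := by ring
  rw [h5]
  exact (abs_add_le _ _).trans (by linarith)

/-- **Few values at a point**: a vector of integers which is near for samples of the same point, with
a function of the point. -/
theorem ptl_of {F : Fam m J} {A : F.Ω → Prop} {σ τ : Type} {N B : ℕ} (hA : ∃ ω, A ω)
    (z : F.Ω → σ) (v : F.Ω → Fin N → ℤ) (f : σ → (Fin N → ℤ) → τ)
    (hz : ∀ ω ω', A ω → A ω' → ptr F J ω = ptr F J ω' → z ω = z ω')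
    (hv : ∀ ω ω', A ω → A ω' → ptr F J ω = ptr F J ω' → ∀ i, |v ω i - v ω' i| ≤ B) :
    Ptl F A (fun ω => f (z ω) (v ω)) ((2 * B + 1) ^ N) := by
  classical
  obtain ⟨ω₀, hω₀⟩ := hA
  obtain ⟨e⟩ : Nonempty (Fin ((2 * B + 1) ^ N) ≃ (Fin N → Fin (2 * B + 1))) :=
    ⟨finFunctionFinEquiv.symm⟩
  obtain ⟨rep, hrep⟩ : ∃ rep : PtT F → F.Ω, ∀ ω, A ω → A (rep (ptr F J ω)) ∧
      ptr F J (rep (ptr F J ω)) = ptr F J ω := by
    refine ⟨fun p => if h : ∃ ω, A ω ∧ ptr F J ω = p then h.choose else ω₀, fun ω hω => ?_⟩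
    have h : ∃ ω', A ω' ∧ ptr F J ω' = ptr F J ω := ⟨ω, hω, rfl⟩
    simp only [dif_pos h]
    exact h.choose_spec
  refine ⟨fun p b => f (z (rep p)) (fun i => v (rep p) i + ((e b i : ℕ) : ℤ) - B), fun ω hω => ?_⟩
  obtain ⟨r1, r2⟩ := hrep ω hω
  have hb := hv ω (rep (ptr F J ω)) hω r1 r2.symm
  obtain ⟨o, ho⟩ : ∃ o : Fin N → Fin (2 * B + 1), ∀ i,
      ((o i : ℕ) : ℤ) = v ω i - v (rep (ptr F J ω)) i + B := by
    refine ⟨fun i => ⟨(v ω i - v (rep (ptr F J ω)) i + B).toNat, ?_⟩, fun i => ?_⟩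
    · have h := abs_le.1 (hb i)
      omega
    · have h := abs_le.1 (hb i)
      exact Int.toNat_of_nonneg (by omega)
  refine ⟨e.symm o, ?_⟩
  show f (z ω) (v ω) = f (z (rep (ptr F J ω))) _
  rw [Equiv.apply_symm_apply, hz ω _ hω r1 r2.symm]
  congr 1
  funext i
  rw [ho i]
  ring

end Pool.FR60
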